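import Mathlib

/-!
Non-nested matchings in two-coloured ordered complete graphs: basic definitions and
the window inequality (`win`).
Vertices are natural numbers, an edge is a pair `e` with `e.1 < e.2`.
-/

namespace Pool.Agent.H76R2.NM

/-- Two edges are disjoint and non-nested. -/
def Comp (e f : ℕ × ℕ) : Prop :=
  ((e.1 < f.1 ∧ e.2 < f.2) ∨ (f.1 < e.1 ∧ f.2 < e.2)) ∧ e.1 ≠ f.2 ∧ e.2 ≠ f.1

/-- A non-nested matching. -/
structure NN (M : Finset (ℕ × ℕ)) : Prop where
  lt : ∀ e ∈ M, e.1 < e.2
  comp : ∀ e ∈ M, ∀ f ∈ M, e ≠ f → Comp e f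

theorem NN.empty : NN ∅ := ⟨by simp, by simp⟩

theorem Comp.symm {e f : ℕ × ℕ} (h : Comp e f) : Comp f e := by
  unfold Comp at *
  obtain ⟨h1, h2, h3⟩ := h
  exact ⟨h1.symm, fun h => h3 h.symm, fun h => h2 h.symm⟩

theorem NN.mono {M M' : Finset (ℕ × ℕ)} (h : NN M) (hs : M' ⊆ M) : NN M' :=
  ⟨fun e he => h.lt e (hs he), fun e he f hf => h.comp e (hs he) f (hs hf)⟩

theorem NN.union {M₁ M₂ : Finset (ℕ × ℕ)} (h₁ : NN M₁) (h₂ : NN M₂)
    (h : ∀ e ∈ M₁, ∀ f ∈ M₂, e.1 < f.1 ∧ e.2 < f.2 ∧ e.2 ≠ f.1) : NN (M₁ ∪ M₂) := by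
  have key : ∀ e ∈ M₁, ∀ f ∈ M₂, Comp e f := by
    intro e he f hf
    obtain ⟨a, b, c⟩ := h e he f hf
    have := h₂.lt f hf
    exact ⟨Or.inl ⟨a, b⟩, by omega, c⟩
  refine ⟨?_, ?_⟩
  · intro e he
    rcases Finset.mem_union.1 he with he | he
    · exact h₁.lt e he
    · exact h₂.lt e he
  · intro e he f hf hne
    rcases Finset.mem_union.1 he with he | he <;> rcases Finset.mem_union.1 hf with hf | hf
    · exact h₁.comp e he f hf hne
    · exact key e he f hf
    · exact (key f hf e he).symm
    · exact h₂.comp e he f hf hne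

theorem card_union_of {M₁ M₂ : Finset (ℕ × ℕ)}
    (h : ∀ e ∈ M₁, ∀ f ∈ M₂, e.1 < f.1) : (M₁ ∪ M₂).card = M₁.card + M₂.card := by
  apply Finset.card_union_of_disjoint
  rw [Finset.disjoint_left]
  intro e he he'
  exact lt_irrefl _ (h e he e he')

theorem NN.insertTop {M : Finset (ℕ × ℕ)} (h₁ : NN M) {y u : ℕ} (hyu : y < u)
    (h : ∀ e ∈ M, e.1 < y ∧ e.2 < u ∧ e.2 ≠ y) : NN (insert (y, u) M) := by
  have : insert (y, u) M = M ∪ {(y, u)} := by
    ext x; simp [or_comm]
  rw [this]
  refine NN.union h₁ ⟨by simpa using hyu, ?_⟩ ?_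
  · intro e he f hf hne
    rw [Finset.mem_singleton] at he hf
    exact absurd (he.trans hf.symm) hne
  · intro e he f hf
    rw [Finset.mem_singleton] at hf
    subst hf
    exact h e he

/-- `Av c col j M S`: `M` is a non-nested matching of colour `col` on the vertices `< j`, it avoids
`S`, and all its left ends lie before `S`. -/
structure Av (c : ℕ → ℕ → Bool) (col : Bool) (j : ℕ) (M : Finset (ℕ × ℕ)) (S : Finset ℕ) :
    Prop where
  nn : NN M
  bd : ∀ e ∈ M, e.2 < j
  col : ∀ e ∈ M, c e.1 e.2 = col
  left : ∀ e ∈ M, ∀ s ∈ S, e.1 < s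
  right : ∀ e ∈ M, e.2 ∉ S

theorem Av.empty (c : ℕ → ℕ → Bool) (col : Bool) (j : ℕ) (S : Finset ℕ) : Av c col j ∅ S :=
  ⟨NN.empty, by simp, by simp, by simp, by simp⟩

theorem Av.succ {c : ℕ → ℕ → Bool} {col : Bool} {j : ℕ} {M : Finset (ℕ × ℕ)} {S : Finset ℕ}
    (h : Av c col j M S) : Av c col (j + 1) M S :=
  ⟨h.nn, fun e he => (h.bd e he).trans (Nat.lt_succ_self j), h.col, h.left, h.right⟩

theorem Av.addTop {c : ℕ → ℕ → Bool} {col : Bool} {j : ℕ} {M : Finset (ℕ × ℕ)} {S : Finset ℕ}
    (h : Av c col j M S) : Av c col (j + 1) M (insert j S) := by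
  refine ⟨h.nn, fun e he => (h.bd e he).trans (Nat.lt_succ_self j), h.col, ?_, ?_⟩
  · intro e he s hs
    have h1 := h.bd e he
    have h2 := h.nn.lt e he
    rcases Finset.mem_insert.1 hs with rfl | hs
    · omega
    · exact h.left e he s hs
  · intro e he hs
    have h1 := h.bd e he
    rcases Finset.mem_insert.1 hs with hs | hs
    · omega
    · exact h.right e he hs

/-- Replace the pendant at the smallest element `y` of `S` by the edge `(y, j)`. -/
theorem Av.extend {c : ℕ → ℕ → Bool} {col : Bool} {j : ℕ} {M : Finset (ℕ × ℕ)} {S : Finset ℕ}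
    (h : Av c col j M S) {y : ℕ} (hy : y ∈ S) (hmin : ∀ s ∈ S, y ≤ s) (hj : ∀ s ∈ S, s < j)
    (hc : c y j = col) :
    Av c col (j + 1) (insert (y, j) M) (S.erase y) ∧ (insert (y, j) M).card = M.card + 1 := by
  have hyj := hj y hy
  refine ⟨⟨?_, ?_, ?_, ?_, ?_⟩, ?_⟩
  · apply NN.insertTop h.nn hyj
    intro e he
    refine ⟨h.left e he y hy, h.bd e he, ?_⟩
    intro h1
    exact h.right e he (h1 ▸ hy)
  · intro e he
    rcases Finset.mem_insert.1 he with rfl | he
    · exact Nat.lt_succ_self j
    · exact (h.bd e he).trans (Nat.lt_succ_self j)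
  · intro e he
    rcases Finset.mem_insert.1 he with rfl | he
    · exact hc
    · exact h.col e he
  · intro e he s hs
    have hs' := Finset.mem_erase.1 hs
    rcases Finset.mem_insert.1 he with rfl | he
    · exact lt_of_le_of_ne (hmin s hs'.2) (fun h => hs'.1 h.symm)
    · exact h.left e he s hs'.2
  · intro e he hs
    have hs' := Finset.mem_erase.1 hs
    rcases Finset.mem_insert.1 he with rfl | he
    · exact lt_irrefl _ (hj _ hs'.2)
    · exact h.right e he hs'.2
  · apply Finset.card_insert_of_notMem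
    intro hmem
    exact lt_irrefl _ (h.left _ hmem y hy)

/-- The order-preserving perfect matching between two sets of the same size. -/
theorem exists_match : ∀ (h : ℕ) (A B : Finset ℕ), A.card = h → B.card = h →
    (∀ a ∈ A, ∀ b ∈ B, a < b) → ∃ M : Finset (ℕ × ℕ), NN M ∧ M.card = h ∧
      (∀ e ∈ M, e.1 ∈ A ∧ e.2 ∈ B) := by
  intro h
  induction h with
  | zero =>
    intro A B _ _ _
    exact ⟨∅, NN.empty, rfl, by simp⟩
  | succ h ih =>
    intro A B hA hB hAB
    have hAne : A.Nonempty := by rw [← Finset.card_pos]; omega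
    have hBne : B.Nonempty := by rw [← Finset.card_pos]; omega
    obtain ⟨M, hM, hcard, hmem⟩ := ih (A.erase (A.max' hAne)) (B.erase (B.max' hBne))
      (by rw [Finset.card_erase_of_mem (Finset.max'_mem _ _)]; omega)
      (by rw [Finset.card_erase_of_mem (Finset.max'_mem _ _)]; omega)
      (fun a ha b hb => hAB a (Finset.mem_of_mem_erase ha) b (Finset.mem_of_mem_erase hb))
    have h1 : ∀ e ∈ M, e.1 < A.max' hAne ∧ e.2 < B.max' hBne ∧ e.2 ≠ A.max' hAne := by
      intro e he
      obtain ⟨p, q⟩ := hmem e he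
      refine ⟨?_, ?_, ?_⟩
      · exact lt_of_le_of_ne (Finset.le_max' _ _ (Finset.mem_of_mem_erase p))
          (Finset.ne_of_mem_erase p)
      · exact lt_of_le_of_ne (Finset.le_max' _ _ (Finset.mem_of_mem_erase q))
          (Finset.ne_of_mem_erase q)
      · have := hAB _ (Finset.max'_mem A hAne) _ (Finset.mem_of_mem_erase q)
        omega
    refine ⟨insert (A.max' hAne, B.max' hBne) M,
      NN.insertTop hM (hAB _ (Finset.max'_mem _ _) _ (Finset.max'_mem _ _)) h1, ?_, ?_⟩
    · rw [Finset.card_insert_of_notMem, hcard]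
      intro hmem'
      exact lt_irrefl _ (h1 _ hmem').1
    · intro e he
      rcases Finset.mem_insert.1 he with rfl | he
      · exact ⟨Finset.max'_mem A hAne, Finset.max'_mem B hBne⟩
      · exact ⟨Finset.mem_of_mem_erase (hmem e he).1, Finset.mem_of_mem_erase (hmem e he).2⟩

/-- Colour split of a matching. -/
theorem split_card (c : ℕ → ℕ → Bool) (M : Finset (ℕ × ℕ)) (col : Bool) :
    (M.filter (fun e => c e.1 e.2 = col)).card + (M.filter (fun e => c e.1 e.2 = !col)).card
      = M.card := by
  rw [← Finset.card_filter_add_card_filter_not (s := M) (fun e => c e.1 e.2 = col)]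
  congr 2
  ext e
  simp only [Finset.mem_filter, and_congr_right_iff]
  intro _
  cases c e.1 e.2 <;> cases col <;> simp

/-- The last `k` vertices below `j`. -/
def Win (j k : ℕ) : Finset ℕ := Finset.Ico (j - k) j

/-- The conclusion of the window inequality. -/
def WC (c : ℕ → ℕ → Bool) (col : Bool) (j n k : ℕ) : Prop :=
  ∀ S ⊆ Win j k,
    (∃ M S', S' ⊆ S ∧ Av c col j M S' ∧ n ≤ M.card + S'.card) ∨
    (∃ M T', T' ⊆ Win j k \ S ∧ Av c (!col) j M T' ∧
      j + min k n + 1 ≤ 2 * M.card + T'.card + 2 * n)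

theorem WC.step {c : ℕ → ℕ → Bool} {col : Bool} {j n k : ℕ} (hk : k + 1 ≤ j)
    (h1 : WC c col j (n + 1) (k + 1)) (h2 : WC c col j n k) :
    WC c col (j + 1) (n + 1) (k + 1) := by
  have hy₁ : j - (k + 1) < j := by omega
  set y₁ := j - (k + 1) with hy₁def
  have hWj : ∀ x, x ∈ Win j (k + 1) ↔ y₁ ≤ x ∧ x < j := by
    intro x; simp [Win, hy₁def]
  have hWk : ∀ x, x ∈ Win j k ↔ y₁ < x ∧ x < j := by
    intro x; simp [Win]; omega
  have hWu : ∀ x, x ∈ Win (j + 1) (k + 1) ↔ y₁ < x ∧ x < j + 1 := by
    intro x; simp [Win]; omega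
  intro S hS
  by_cases hj : j ∈ S
  · -- the new pendant has colour `col`
    have hS0 : S.erase j ⊆ Win j k := by
      intro x hx
      have hx' := Finset.mem_erase.1 hx
      have := (hWu x).1 (hS hx'.2)
      rw [hWk]
      omega
    rcases h2 (S.erase j) hS0 with ⟨M, S', hS', hav, hcard⟩ | ⟨M, T', hT', hav, hcard⟩
    · left
      refine ⟨M, insert j S', ?_, hav.addTop, ?_⟩
      · intro x hx
        rcases Finset.mem_insert.1 hx with rfl | hx
        · exact hj
        · exact Finset.mem_of_mem_erase (hS' hx)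
      · have : j ∉ S' := fun h => absurd rfl (Finset.mem_erase.1 (hS' h)).1
        rw [Finset.card_insert_of_notMem this]
        omega
    · right
      refine ⟨M, T', ?_, hav.succ, ?_⟩
      · intro x hx
        have hx' := Finset.mem_sdiff.1 (hT' hx)
        have h3 := (hWk x).1 hx'.1
        rw [Finset.mem_sdiff, hWu]
        refine ⟨by omega, ?_⟩
        intro h4
        exact hx'.2 (Finset.mem_erase.2 ⟨by omega, h4⟩)
      · omega
  · have hSj : ∀ x ∈ S, y₁ < x ∧ x < j := by
      intro x hx
      have h3 := (hWu x).1 (hS hx)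
      have : x ≠ j := fun h => hj (h ▸ hx)
      omega
    have hSW : S ⊆ Win j (k + 1) := by
      intro x hx
      rw [hWj]
      have := hSj x hx
      omega
    rcases h1 S hSW with ⟨M, S', hS', hav, hcard⟩ | ⟨M, T', hT', hav, hcard⟩
    · left
      exact ⟨M, S', hS', hav.succ, hcard⟩
    · have hTj : ∀ x ∈ T', (y₁ ≤ x ∧ x < j) ∧ x ∉ S := by
        intro x hx
        have hx' := Finset.mem_sdiff.1 (hT' hx)
        exact ⟨(hWj x).1 hx'.1, hx'.2⟩
      have hadd : ∀ (M : Finset (ℕ × ℕ)) (T' : Finset ℕ), Av c (!col) j M T' →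
          (∀ x ∈ T', (y₁ < x ∧ x < j) ∧ x ∉ S) →
          j + min (k + 1) (n + 1) + 1 ≤ 2 * M.card + T'.card + 2 * (n + 1) →
          (∃ M T', T' ⊆ Win (j + 1) (k + 1) \ S ∧ Av c (!col) (j + 1) M T' ∧
            j + 1 + min (k + 1) (n + 1) + 1 ≤ 2 * M.card + T'.card + 2 * (n + 1)) := by
        intro M T' hav hT hcard
        refine ⟨M, insert j T', ?_, hav.addTop, ?_⟩
        · intro x hx
          rw [Finset.mem_sdiff, hWu]
          rcases Finset.mem_insert.1 hx with rfl | hx
          · exact ⟨by omega, hj⟩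
          · have := hT x hx
            exact ⟨by omega, this.2⟩
        · have : j ∉ T' := fun h => by have := hT j h; omega
          rw [Finset.card_insert_of_notMem this]
          omega
      by_cases hyT : y₁ ∈ T'
      · by_cases hcol : c y₁ j = !col
        · -- extend the red matching
          right
          obtain ⟨h3, h4⟩ := hav.extend hyT (fun s hs => (hTj s hs).1.1)
            (fun s hs => (hTj s hs).1.2) hcol
          refine ⟨_, _, ?_, h3, ?_⟩
          · intro x hx
            have hx' := Finset.mem_erase.1 hx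
            have := hTj x hx'.2
            rw [Finset.mem_sdiff, hWu]
            exact ⟨by omega, this.2⟩
          · rw [h4, Finset.card_erase_of_mem hyT]
            have : 0 < T'.card := Finset.card_pos.2 ⟨_, hyT⟩
            omega
        · have hcol' : c y₁ j = col := by
            cases hc : c y₁ j <;> cases col <;> simp_all
          have hyS : y₁ ∉ S := (hTj _ hyT).2
          have hSW' : insert y₁ S ⊆ Win j (k + 1) := by
            intro x hx
            rcases Finset.mem_insert.1 hx with rfl | hx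
            · rw [hWj]; omega
            · exact hSW hx
          rcases h1 (insert y₁ S) hSW' with ⟨M₂, S₂, hS₂, hav₂, hcard₂⟩ | ⟨M₂, T₂, hT₂, hav₂, hcard₂⟩
          · left
            have hS₂j : ∀ x ∈ S₂, y₁ ≤ x ∧ x < j := by
              intro x hx
              exact (hWj x).1 (hSW' (hS₂ hx))
            by_cases hyS₂ : y₁ ∈ S₂
            · obtain ⟨h3, h4⟩ := hav₂.extend hyS₂ (fun s hs => (hS₂j s hs).1)
                (fun s hs => (hS₂j s hs).2) hcol'
              refine ⟨_, _, ?_, h3, ?_⟩
              · intro x hx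
                have hx' := Finset.mem_erase.1 hx
                rcases Finset.mem_insert.1 (hS₂ hx'.2) with h5 | h5
                · exact absurd h5 hx'.1
                · exact h5
              · rw [h4, Finset.card_erase_of_mem hyS₂]
                have : 0 < S₂.card := Finset.card_pos.2 ⟨_, hyS₂⟩
                omega
            · refine ⟨M₂, S₂, ?_, hav₂.succ, hcard₂⟩
              intro x hx
              rcases Finset.mem_insert.1 (hS₂ hx) with rfl | h5
              · exact absurd hx hyS₂
              · exact h5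
          · right
            apply hadd M₂ T₂ hav₂ _ hcard₂
            intro x hx
            have hx' := Finset.mem_sdiff.1 (hT₂ hx)
            have h5 := (hWj x).1 hx'.1
            rw [Finset.mem_insert, not_or] at hx'
            exact ⟨by omega, hx'.2.2⟩
      · right
        apply hadd M T' hav _ hcard
        intro x hx
        have h5 := hTj x hx
        have : x ≠ y₁ := fun h => hyT (h ▸ hx)
        exact ⟨by omega, h5.2⟩

/-- **Window inequality.** -/
theorem win (c : ℕ → ℕ → Bool) (col : Bool) : ∀ j k n : ℕ, k ≤ j → WC c col j n k := by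
  intro j
  induction j with
  | zero =>
    intro k n hk S hS
    have hS0 : S = ∅ := by
      have : k = 0 := by omega
      subst this
      simpa [Win] using hS
    have : k = 0 := by omega
    subst this
    rcases Nat.eq_zero_or_pos n with hn | hn
    · left
      exact ⟨∅, ∅, by simp, Av.empty _ _ _ _, by simp [hn]⟩
    · right
      refine ⟨∅, ∅, by simp, Av.empty _ _ _ _, ?_⟩
      simp
      omega
  | succ j ih =>
    intro k n hk
    rcases Nat.eq_zero_or_pos n with hn | hn
    · intro S hS
      left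
      exact ⟨∅, ∅, by simp, Av.empty _ _ _ _, by simp [hn]⟩
    obtain ⟨n, rfl⟩ : ∃ n', n = n' + 1 := ⟨n - 1, by omega⟩
    rcases Nat.eq_zero_or_pos k with hk0 | hk0
    · -- no window
      subst hk0
      intro S hS
      obtain ⟨M, hM, hMc, hMm⟩ := exists_match ((j + 1) / 2) (Finset.range ((j + 1) / 2))
        (Finset.Ico ((j + 1) / 2) ((j + 1) / 2 + (j + 1) / 2)) (by simp) (by simp)
        (by intro a ha b hb; simp at ha hb; omega)
      have hsp := split_card c M col
      have hav : ∀ col', Av c col' (j + 1) (M.filter (fun e => c e.1 e.2 = col')) ∅ := by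
        intro col'
        refine ⟨hM.mono (Finset.filter_subset _ _), ?_, ?_, by simp, by simp⟩
        · intro e he
          have := (hMm e (Finset.mem_filter.1 he).1).2
          rw [Finset.mem_Ico] at this
          omega
        · intro e he
          exact (Finset.mem_filter.1 he).2
      by_cases hb : n + 1 ≤ (M.filter (fun e => c e.1 e.2 = col)).card
      · left
        exact ⟨_, ∅, by simp, hav col, by simpa using hb⟩
      · right
        refine ⟨_, ∅, by simp, hav (!col), ?_⟩
        simp only [Finset.card_empty]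
        omega
    · obtain ⟨k, rfl⟩ : ∃ k', k = k' + 1 := ⟨k - 1, by omega⟩
      rcases Nat.lt_or_ge k j with hkj | hkj
      · exact WC.step (by omega) (ih (k + 1) (n + 1) (by omega)) (ih k n (by omega))
      · -- the window is everything
        have hkj' : k = j := by omega
        subst hkj'
        intro S hS
        have hW : (Win (k + 1) (k + 1)).card = k + 1 := by simp [Win]
        have h3 := Finset.card_sdiff_add_card_eq_card hS
        by_cases hSn : n + 1 ≤ S.card
        · left
          exact ⟨∅, S, le_refl _, Av.empty _ _ _ _, by simpa using hSn⟩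
        · right
          refine ⟨∅, Win (k + 1) (k + 1) \ S, le_refl _, Av.empty _ _ _ _, ?_⟩
          simp only [Finset.card_empty]
          omega

end Pool.Agent.H76R2.NM
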