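import Mathlib

/-!
Statement-level definitions: non-nested matchings in the ordered complete graph on `Fin m`.
An edge `ij` with `i < j` is the pair `(i, j)`.
-/

namespace Pool.Agent.H76R2.NM

/-- The edges `e = ij` and `f = st` are nested: one lies strictly inside the interval spanned by the
other. -/
def Nested {m : ℕ} (e f : Fin m × Fin m) : Prop :=
  (e.1 < f.1 ∧ f.2 < e.2) ∨ (f.1 < e.1 ∧ e.2 < f.2)

/-- The edges `e` and `f` share no vertex. -/
def VertexDisjoint {m : ℕ} (e f : Fin m × Fin m) : Prop :=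
  e.1 ≠ f.1 ∧ e.1 ≠ f.2 ∧ e.2 ≠ f.1 ∧ e.2 ≠ f.2

/-- A finite set of edges of the ordered complete graph on `Fin m` that is a matching without
nested pairs. -/
def IsNonNestedMatching {m : ℕ} (M : Finset (Fin m × Fin m)) : Prop :=
  (∀ e ∈ M, e.1 < e.2) ∧ ∀ e ∈ M, ∀ f ∈ M, e ≠ f → VertexDisjoint e f ∧ ¬ Nested e f

/-- Every 2-colouring of the edges of the ordered complete graph on `m` vertices has a
monochromatic non-nested matching with `n` edges.  The edge `ij`, `i < j`, has colour `c i j`. -/
def Forces (m n : ℕ) : Prop :=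
  ∀ c : Fin m → Fin m → Bool, ∃ (col : Bool) (M : Finset (Fin m × Fin m)),
    IsNonNestedMatching M ∧ M.card = n ∧ ∀ e ∈ M, c e.1 e.2 = col

/-- The function `f` of the problem. -/
noncomputable def f (n : ℕ) : ℕ := sInf {m | 2 ≤ m ∧ Forces m n}

end Pool.Agent.H76R2.NM
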