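import Pool.Agent.H76R2.NNBasic

/-!
Combination of the two sides of a cut and the bound `11 n / 3`.
-/

namespace Pool.Agent.H76R2.NM

/-- No monochromatic non-nested matching of size `n` on the vertices `< N`. -/
def NoMono (c : ℕ → ℕ → Bool) (N n : ℕ) : Prop :=
  ∀ (col : Bool) (M : Finset (ℕ × ℕ)), NN M → (∀ e ∈ M, e.2 < N) → (∀ e ∈ M, c e.1 e.2 = col) →
    M.card < n

theorem comb {c : ℕ → ℕ → Bool} {N n j k : ℕ} (hN : NoMono c N n) (hk : k ≤ j) (hjN : j + k ≤ N)
    {col : Bool} {M : Finset (ℕ × ℕ)} {S : Finset ℕ} (hav : Av c col j M S) (hS : S ⊆ Win j k)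
    (hSc : ∀ x ∈ S, c x (x + k) = col) {P : Finset (ℕ × ℕ)} (hP : NN P)
    (hP1 : ∀ e ∈ P, j ≤ e.1) (hP2 : ∀ e ∈ P, j + k ≤ e.2) (hP3 : ∀ e ∈ P, e.2 < N)
    (hPc : ∀ e ∈ P, c e.1 e.2 = col) (hPS : ∀ e ∈ P, ∀ x ∈ S, x + k ≠ e.1) :
    M.card + S.card + P.card < n := by
  have hSj : ∀ x ∈ S, j ≤ x + k ∧ x < j := by
    intro x hx
    have := hS hx
    simp only [Win, Finset.mem_Ico] at this
    omega
  set D : Finset (ℕ × ℕ) := S.image (fun x => (x, x + k)) with hD
  have hDm : ∀ e ∈ D, e.1 ∈ S ∧ e.2 = e.1 + k := by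
    intro e he
    obtain ⟨x, hx, rfl⟩ := Finset.mem_image.1 he
    exact ⟨hx, rfl⟩
  have hDcard : D.card = S.card := by
    apply Finset.card_image_of_injective
    intro x y hxy
    exact (Prod.mk.inj hxy).1
  have hDNN : NN D := by
    refine ⟨?_, ?_⟩
    · intro e he
      obtain ⟨h1, h2⟩ := hDm e he
      have := hSj _ h1
      omega
    · intro e he f hf hne
      obtain ⟨h1, h2⟩ := hDm e he
      obtain ⟨h3, h4⟩ := hDm f hf
      have h5 := hSj _ h1
      have h6 := hSj _ h3
      have h7 : e.1 ≠ f.1 := by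
        intro h
        exact hne (Prod.ext h (by rw [h2, h4, h]))
      unfold Comp
      omega
  have hU1 : NN (M ∪ D) := by
    apply NN.union hav.nn hDNN
    intro e he f hf
    obtain ⟨h3, h4⟩ := hDm f hf
    have h5 := hSj _ h3
    have h6 := hav.bd e he
    refine ⟨hav.left e he _ h3, by omega, ?_⟩
    intro h7
    exact hav.right e he (h7 ▸ h3)
  have hU1c : (M ∪ D).card = M.card + D.card := by
    apply card_union_of
    intro e he f hf
    exact hav.left e he _ (hDm f hf).1
  have hU1b : ∀ e ∈ M ∪ D, e.1 < j ∧ e.2 < j + k := by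
    intro e he
    rcases Finset.mem_union.1 he with he | he
    · have h1 := hav.bd e he
      have h2 := hav.nn.lt e he
      omega
    · obtain ⟨h1, h2⟩ := hDm e he
      have := hSj _ h1
      omega
  have hU2 : NN ((M ∪ D) ∪ P) := by
    apply NN.union hU1 hP
    intro e he f hf
    have h1 := hU1b e he
    have h2 := hP1 f hf
    have h3 := hP2 f hf
    refine ⟨by omega, by omega, ?_⟩
    rcases Finset.mem_union.1 he with he | he
    · have := hav.bd e he
      omega
    · obtain ⟨h4, h5⟩ := hDm e he
      have := hPS f hf _ h4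
      omega
  have hU2c : ((M ∪ D) ∪ P).card = (M ∪ D).card + P.card := by
    apply card_union_of
    intro e he f hf
    have h1 := hU1b e he
    have h2 := hP1 f hf
    omega
  have h := hN col ((M ∪ D) ∪ P) hU2 ?_ ?_
  · omega
  · intro e he
    rcases Finset.mem_union.1 he with he | he
    · have := (hU1b e he).2
      omega
    · exact hP3 e he
  · intro e he
    rcases Finset.mem_union.1 he with he | he
    · rcases Finset.mem_union.1 he with he | he
      · exact hav.col e he
      · obtain ⟨h4, h5⟩ := hDm e he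
        rw [h5]
        exact hSc _ h4
    · exact hPc e he

/-- A set of integers of size at least `2 h` contains a full `h`-matching whose right ends are its
`h` largest elements. -/
theorem exists_match_set (U : Finset ℕ) (h : ℕ) (hU : 2 * h ≤ U.card) :
    ∃ M : Finset (ℕ × ℕ), NN M ∧ M.card = h ∧
      (∀ e ∈ M, e.1 ∈ U ∧ e.2 ∈ U ∧ h ≤ (U.filter (fun x => x < e.2)).card) := by
  set m := U.card with hm
  set x : Fin m ↪o ℕ := U.orderEmbOfFin hm.symm with hx
  have hxU : ∀ i, x i ∈ U := fun i => Finset.orderEmbOfFin_mem U hm.symm i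
  set A : Finset ℕ := (Finset.univ.filter (fun i : Fin m => i.val < h)).image x with hA
  set B : Finset ℕ := (Finset.univ.filter (fun i : Fin m => m - h ≤ i.val)).image x with hB
  have hAc : A.card = h := by
    rw [hA, Finset.card_image_of_injective _ x.injective]
    rw [Fin.card_filter_val_lt]
    omega
  have hBc : B.card = h := by
    rw [hB, Finset.card_image_of_injective _ x.injective]
    have h1 : (Finset.univ.filter (fun i : Fin m => m - h ≤ i.val)) =
        Finset.univ \ (Finset.univ.filter (fun i : Fin m => i.val < m - h)) := by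
      ext i; simp
    rw [h1, Finset.card_sdiff_of_subset (Finset.filter_subset _ _), Fin.card_filter_val_lt]
    simp
    omega
  have hAB : ∀ a ∈ A, ∀ b ∈ B, a < b := by
    intro a ha b hb
    obtain ⟨i, hi, rfl⟩ := Finset.mem_image.1 ha
    obtain ⟨i', hi', rfl⟩ := Finset.mem_image.1 hb
    rw [Finset.mem_filter] at hi hi'
    apply x.strictMono
    rw [Fin.lt_def]
    omega
  obtain ⟨M, hM, hMc, hMm⟩ := exists_match h A B hAc hBc hAB
  refine ⟨M, hM, hMc, ?_⟩
  intro e he
  obtain ⟨h1, h2⟩ := hMm e he
  refine ⟨?_, ?_, ?_⟩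
  · obtain ⟨i, _, hi⟩ := Finset.mem_image.1 h1
    rw [← hi]; exact hxU i
  · obtain ⟨i, _, hi⟩ := Finset.mem_image.1 h2
    rw [← hi]; exact hxU i
  · rw [← hAc]
    apply Finset.card_le_card
    intro a ha
    rw [Finset.mem_filter]
    refine ⟨?_, hAB a ha _ h2⟩
    obtain ⟨i, _, hi⟩ := Finset.mem_image.1 ha
    rw [← hi]; exact hxU i

/-- The main counting inequality. -/
theorem main_bound {c : ℕ → ℕ → Bool} {N n k : ℕ} (h : NoMono c N n) (hN : 3 * k ≤ N)
    (hk : 3 * k ≤ 2 * n + 1) : 2 * N + k + 4 ≤ 8 * n := by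
  obtain ⟨j, hj⟩ : ∃ j, N = j + 2 * k := ⟨N - 2 * k, by omega⟩
  have hkj : k ≤ j := by omega
  -- the matching on the last `k` vertices
  obtain ⟨P, hP, hPc, hPm⟩ := exists_match_set (Finset.Ico (j + k) N) (k / 2)
    (by rw [Nat.card_Ico]; omega)
  have hPm' : ∀ e ∈ P, j + k ≤ e.1 ∧ j + k ≤ e.2 ∧ e.2 < N := by
    intro e he
    obtain ⟨h1, h2, _⟩ := hPm e he
    rw [Finset.mem_Ico] at h1 h2
    omega
  have hsp : (P.filter (fun e => c e.1 e.2 = true)).card +
      (P.filter (fun e => c e.1 e.2 = false)).card = k / 2 := by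
    rw [← hPc]
    exact split_card c P true
  -- for each colour, a large available matching of the other colour
  have key : ∀ col : Bool, ∃ (M : Finset (ℕ × ℕ)) (T : Finset ℕ), T ⊆ Win j k ∧
      (∀ x ∈ T, c x (x + k) = !col) ∧ Av c (!col) j M T ∧
      j + k + 1 ≤ 2 * M.card + T.card + 2 * (n - (P.filter (fun e => c e.1 e.2 = col)).card) := by
    intro col
    set b := (P.filter (fun e => c e.1 e.2 = col)).card with hb
    have hbk : b ≤ k / 2 := by
      rw [hb, ← hPc]
      exact Finset.card_le_card (Finset.filter_subset _ _)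
    set S := (Win j k).filter (fun x => c x (x + k) = col) with hS
    rcases win c col j k (n - b) hkj S (Finset.filter_subset _ _) with
      ⟨M, S', hS', hav, hcard⟩ | ⟨M, T', hT', hav, hcard⟩
    · exfalso
      have h1 := comb h hkj (by omega : j + k ≤ N) hav (hS'.trans (Finset.filter_subset _ _))
        (fun x hx => (Finset.mem_filter.1 (hS' hx)).2)
        (P := P.filter (fun e => c e.1 e.2 = col)) (hP.mono (Finset.filter_subset _ _))
        (fun e he => by have := hPm' e (Finset.mem_filter.1 he).1; omega)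
        (fun e he => by have := hPm' e (Finset.mem_filter.1 he).1; omega)
        (fun e he => by have := hPm' e (Finset.mem_filter.1 he).1; omega)
        (fun e he => (Finset.mem_filter.1 he).2)
        (fun e he x hx => by
          have h1 := hPm' e (Finset.mem_filter.1 he).1
          have h2 := (Finset.mem_filter.1 (hS' hx)).1
          simp only [Win, Finset.mem_Ico] at h2
          omega)
      omega
    · refine ⟨M, T', ?_, ?_, hav, ?_⟩
      · exact hT'.trans (Finset.sdiff_subset)
      · intro x hx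
        have h1 := Finset.mem_sdiff.1 (hT' hx)
        have h2 : c x (x + k) ≠ col := by
          intro h3
          exact h1.2 (Finset.mem_filter.2 ⟨h1.1, h3⟩)
        cases hc : c x (x + k) <;> cases col <;> simp_all
      · omega
  obtain ⟨M₁, T₁, hT₁, hT₁c, hav₁, hcard₁⟩ := key true
  obtain ⟨M₂, T₂, hT₂, hT₂c, hav₂, hcard₂⟩ := key false
  -- the matching on the other side avoiding the partners of `T₁ ∪ T₂`
  have hdisj : Disjoint T₁ T₂ := by
    rw [Finset.disjoint_left]
    intro x hx hx'
    have h1 := hT₁c x hx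
    have h2 := hT₂c x hx'
    rw [h1] at h2
    exact absurd h2 (by decide)
  set Q : Finset ℕ := (T₁ ∪ T₂).image (fun x => x + k) with hQ
  have hQc : Q.card = T₁.card + T₂.card := by
    rw [hQ, Finset.card_image_of_injective _ (add_left_injective k),
      Finset.card_union_of_disjoint hdisj]
  have hQsub : Q ⊆ Finset.Ico j (j + k) := by
    intro y hy
    obtain ⟨x, hx, rfl⟩ := Finset.mem_image.1 hy
    have : x ∈ Win j k := by
      rcases Finset.mem_union.1 hx with hx | hx
      · exact hT₁ hx
      · exact hT₂ hx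
    simp only [Win, Finset.mem_Ico] at this
    rw [Finset.mem_Ico]
    omega
  have hQk : Q.card ≤ k := by
    have := Finset.card_le_card hQsub
    rw [Nat.card_Ico] at this
    omega
  set U : Finset ℕ := Finset.Ico j N \ Q with hU
  have hQsub' : Q ⊆ Finset.Ico j N := by
    refine hQsub.trans ?_
    intro x hx
    rw [Finset.mem_Ico] at hx ⊢
    omega
  have hUc : U.card + Q.card = 2 * k := by
    have := Finset.card_sdiff_add_card_eq_card hQsub'
    rw [Nat.card_Ico, ← hU] at this
    omega
  obtain ⟨R, hR, hRc, hRm⟩ := exists_match_set U (U.card / 2) (by omega)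
  have hRm' : ∀ e ∈ R, j ≤ e.1 ∧ j + k ≤ e.2 ∧ e.2 < N ∧ e.1 ∉ Q := by
    intro e he
    obtain ⟨h1, h2, h3⟩ := hRm e he
    rw [hU, Finset.mem_sdiff, Finset.mem_Ico] at h1 h2
    refine ⟨h1.1.1, ?_, h2.1.2, h1.2⟩
    by_contra hlt
    push Not at hlt
    -- the elements of `U` below `e.2`, together with `e.2` and `Q`, lie in `[j, j + k)`
    have h4 : (U.filter (fun x => x < e.2)).card + 1 + Q.card ≤ k := by
      have h5 : insert e.2 (U.filter (fun x => x < e.2)) ∪ Q ⊆ Finset.Ico j (j + k) := by
        intro x hx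
        rcases Finset.mem_union.1 hx with hx | hx
        · rcases Finset.mem_insert.1 hx with rfl | hx
          · rw [Finset.mem_Ico]; omega
          · obtain ⟨h6, h7⟩ := Finset.mem_filter.1 hx
            rw [hU, Finset.mem_sdiff, Finset.mem_Ico] at h6
            rw [Finset.mem_Ico]; omega
        · exact hQsub hx
      have h6 := Finset.card_le_card h5
      rw [Nat.card_Ico, Finset.card_union_of_disjoint, Finset.card_insert_of_notMem] at h6
      · omega
      · simp
      · rw [Finset.disjoint_left]
        intro x hx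
        rcases Finset.mem_insert.1 hx with rfl | hx
        · exact h2.2
        · obtain ⟨h6, h7⟩ := Finset.mem_filter.1 hx
          exact (Finset.mem_sdiff.1 h6).2
    omega
  have hsp2 : (R.filter (fun e => c e.1 e.2 = true)).card +
      (R.filter (fun e => c e.1 e.2 = false)).card = U.card / 2 := by
    rw [← hRc]
    exact split_card c R true
  have hcomb : ∀ (col : Bool) (M : Finset (ℕ × ℕ)) (T : Finset ℕ), T ⊆ Win j k →
      (∀ x ∈ T, c x (x + k) = col) → T ⊆ T₁ ∪ T₂ → Av c col j M T →
      M.card + T.card + (R.filter (fun e => c e.1 e.2 = col)).card < n := by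
    intro col M T hT hTc hTT hav
    refine comb h hkj (by omega : j + k ≤ N) hav hT hTc (hR.mono (Finset.filter_subset _ _))
      (fun e he => ?_) (fun e he => ?_) (fun e he => ?_) (fun e he => (Finset.mem_filter.1 he).2) ?_
    · exact (hRm' e (Finset.mem_filter.1 he).1).1
    · exact (hRm' e (Finset.mem_filter.1 he).1).2.1
    · exact (hRm' e (Finset.mem_filter.1 he).1).2.2.1
    · intro e he x hx h1
      apply (hRm' e (Finset.mem_filter.1 he).1).2.2.2
      rw [← h1]
      exact Finset.mem_image.2 ⟨x, hTT hx, rfl⟩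
  have e1 := hcomb false M₁ T₁ hT₁ hT₁c Finset.subset_union_left hav₁
  have e2 := hcomb true M₂ T₂ hT₂ hT₂c Finset.subset_union_right hav₂
  omega

end Pool.Agent.H76R2.NM
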