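import Pool.Agent.H76R2.NNDefs
import Pool.Agent.H76R2.NNMain

/-! Link between the statement-level definitions and the working definitions. -/

namespace Pool.Agent.H76R2.NM

/-- Extend a colouring of pairs of `Fin m` to all pairs of naturals. -/
def ext {m : ℕ} (c : Fin m → Fin m → Bool) (x y : ℕ) : Bool :=
  if hx : x < m then (if hy : y < m then c ⟨x, hx⟩ ⟨y, hy⟩ else false) else false

theorem ext_val {m : ℕ} (c : Fin m → Fin m → Bool) (x y : Fin m) :
    ext c x.val y.val = c x y := by
  unfold ext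
  rw [dif_pos x.isLt, dif_pos y.isLt]

theorem forces_of {m n : ℕ} (h : ∀ c : ℕ → ℕ → Bool, ¬ NoMono c m n) : Forces m n := by
  intro c
  have h1 := h (ext c)
  unfold NoMono at h1
  push Not at h1
  obtain ⟨col, M, hM, hMm, hMc, hMn⟩ := h1
  obtain ⟨M', hM', hM'n⟩ := Finset.exists_subset_card_eq hMn
  have hlt : ∀ e ∈ M', e.1 < e.2 ∧ e.2 < m := fun e he =>
    ⟨hM.lt e (hM' he), hMm e (hM' he)⟩
  set R : Finset (Fin m × Fin m) :=
    Finset.univ.filter (fun e => (e.1.val, e.2.val) ∈ M') with hR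
  have hRm : ∀ e ∈ R, (e.1.val, e.2.val) ∈ M' := fun e he => (Finset.mem_filter.1 he).2
  refine ⟨col, R, ⟨?_, ?_⟩, ?_, ?_⟩
  · intro e he
    exact hM.lt _ (hM' (hRm e he))
  · intro e he g hg hne
    have h2 := hM.comp _ (hM' (hRm e he)) _ (hM' (hRm g hg)) (by
      intro h3
      apply hne
      have h4 := Prod.mk.inj h3
      exact Prod.ext (Fin.ext h4.1) (Fin.ext h4.2))
    unfold Comp at h2
    simp only at h2
    have h3 : e.1.val < e.2.val := hM.lt _ (hM' (hRm e he))
    have h4 : g.1.val < g.2.val := hM.lt _ (hM' (hRm g hg))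
    refine ⟨⟨?_, ?_, ?_, ?_⟩, ?_⟩
    · intro h; rw [Fin.ext_iff] at h; omega
    · intro h; rw [Fin.ext_iff] at h; omega
    · intro h; rw [Fin.ext_iff] at h; omega
    · intro h; rw [Fin.ext_iff] at h; omega
    · unfold Nested
      simp only [Fin.lt_def]
      omega
  · rw [← hM'n]
    have h2 : R.image (fun e : Fin m × Fin m => (e.1.val, e.2.val)) = M' := by
      ext e
      simp only [Finset.mem_image]
      constructor
      · rintro ⟨a, ha, rfl⟩
        exact hRm a ha
      · intro he
        obtain ⟨h3, h4⟩ := hlt e he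
        refine ⟨(⟨e.1, by omega⟩, ⟨e.2, h4⟩), ?_, rfl⟩
        rw [hR, Finset.mem_filter]
        exact ⟨Finset.mem_univ _, he⟩
    rw [← h2, Finset.card_image_of_injective]
    intro a b hab
    have h3 := Prod.mk.inj hab
    exact Prod.ext (Fin.ext h3.1) (Fin.ext h3.2)
  · intro e he
    have := hMc _ (hM' (hRm e he))
    rw [← this, ext_val]

end Pool.Agent.H76R2.NM
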